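import Pool.Agent.W186.SZ.Spec

set_option autoImplicit false

/-!
# Shifted sums: few zeros off the line, upper bound on the line
-/

namespace Pool.Agent.W723.SZ

open Complex Filter Topology Set
open Pool.Agent.H24R2.JP (XX HH Om)
open Pool.Agent.W186.HZ
open Pool.Agent.W186.SX
open Pool.Agent.W186.SZ

lemma DD_BB (c : ℂ) (h : ℝ) (v : ℂ) :
    DD c h v = BB (fun _ : Fin 1 => c) (fun _ => 2 * h) (v + h) := by
  unfold DD BB
  simp only [Finset.univ_unique, Finset.sum_singleton]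
  have e : v + (h : ℂ) - ((2 * h : ℝ) : ℂ) = v - h := by push_cast; ring
  rw [e]

lemma DD_diff (c : ℂ) (h : ℝ) : Differentiable ℂ (DD c h) := by
  have hdx : Differentiable ℂ XX := Pool.Agent.H24R2.JP.B1h.XX_diff
  exact (hdx.comp (differentiable_id.add_const _)).add
    ((hdx.comp (differentiable_id.sub_const _)).const_mul _)

/-- windows of length ten -/
lemma cnt {c : ℂ} {h : ℝ} (hF : FewX c h) (δ ε : ℝ) (hδ : 0 < δ) (hε : 0 < ε) :
    ∃ T0 : ℝ, 410 ≤ T0 ∧ ∀ T : ℝ, T0 ≤ T → ∀ S : Finset ℂ,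
      (∀ z ∈ S, DD c h z = 0 ∧ δ ≤ z.re ∧ |z.im - T| ≤ 5) →
      ∑ z ∈ S, (analyticOrderNatAt (DD c h) z : ℝ) ≤ ε * Om T := by
  classical
  obtain ⟨T1, h1⟩ := hF δ (ε / 22) hδ (by positivity)
  obtain ⟨T4, hT4, hO⟩ := Om_large 1
  refine ⟨max (max (T1 + 5) T4) 410, le_max_right _ _, ?_⟩
  intro T hT S hS
  have g1 : T1 + 5 ≤ T := ((le_max_left _ _).trans (le_max_left _ _)).trans hT
  have g4 : T4 ≤ T := ((le_max_right _ _).trans (le_max_left _ _)).trans hT
  have g5 : 410 ≤ T := (le_max_right _ _).trans hT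
  have hO1 := hO T g4
  have hmaps : ∀ w ∈ S, ⌊w.im - T + 5⌋₊ ∈ Finset.range 11 := by
    intro w hw
    obtain ⟨w0, w1, w2⟩ := hS w hw
    rw [abs_le] at w2
    rw [Finset.mem_range, Nat.floor_lt' (by norm_num)]
    push_cast
    linarith
  rw [← Finset.sum_fiberwise_of_maps_to hmaps]
  have hcell : ∀ j ∈ Finset.range 11,
      (∑ w ∈ S with ⌊w.im - T + 5⌋₊ = j, (analyticOrderNatAt (DD c h) w : ℝ)) ≤
        ε / 11 * Om T := by
    intro j hj
    rw [Finset.mem_range] at hj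
    have hj1 : (j : ℝ) ≤ 10 := by
      have : j ≤ 10 := by omega
      exact_mod_cast this
    have hj0 : (0 : ℝ) ≤ j := Nat.cast_nonneg j
    have key := h1 (T - 5 + j) (by linarith) (S.filter fun w => ⌊w.im - T + 5⌋₊ = j) (by
      intro w hw
      rw [Finset.mem_filter] at hw
      obtain ⟨hw1, hw2⟩ := hw
      obtain ⟨w0, w1, w2⟩ := hS w hw1
      rw [abs_le] at w2
      have h3 : 0 ≤ w.im - T + 5 := by linarith
      have h4 := Nat.floor_le h3
      have h5 := Nat.lt_floor_add_one (w.im - T + 5)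
      rw [hw2] at h4 h5
      refine ⟨w0, w1.trans (le_abs_self _), ?_⟩
      rw [abs_le]
      constructor <;> linarith)
    have hOn := Om_half (T := T) (T' := T - 5 + j) (by linarith) (by
      rw [abs_le]
      constructor <;> linarith)
    rw [abs_le] at hOn
    refine key.trans ?_
    have h6 : Om (T - 5 + j) ≤ 2 * Om T := by linarith
    calc ε / 22 * Om (T - 5 + j) ≤ ε / 22 * (2 * Om T) :=
          mul_le_mul_of_nonneg_left h6 (by positivity)
      _ = ε / 11 * Om T := by ring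
  calc ∑ j ∈ Finset.range 11,
      (∑ w ∈ S with ⌊w.im - T + 5⌋₊ = j, (analyticOrderNatAt (DD c h) w : ℝ))
      ≤ ∑ j ∈ Finset.range 11, ε / 11 * Om T := Finset.sum_le_sum hcell
    _ = ε * Om T := by
        rw [Finset.sum_const, Finset.card_range, nsmul_eq_mul]
        push_cast
        ring

/-- the bound to the right of the line -/
lemma right_bd {c : ℂ} {h : ℝ} (hh0 : 0 < h) (hh1 : h ≤ 1 / 2) (hF : FewX c h) (η : ℝ)
    (hη : 0 < η) (hη4 : η ≤ 1 / 4) : ∃ T0 : ℝ, 410 ≤ T0 ∧ ∀ T : ℝ, T0 ≤ T →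
      ‖DD c h (I * T + η)‖ ≤ Real.exp (Om T * (2 * η + h)) * ‖HH (I * T)‖ := by
  obtain ⟨ε0, hε0, hsab⟩ := Pool.Agent.W186.LH.sabZ η η 14 hη hη4 hη (by norm_num)
  obtain ⟨T1, hT1, hb⟩ := BB_base (fun _ : Fin 1 => c) (fun _ => 2 * h) (γ := 2 * h)
    (by linarith) (by linarith) (fun _ => le_rfl) (fun _ => by linarith) ε0 hε0
  obtain ⟨T2, hT2, hc2⟩ := cnt hF (η / 4) ε0 (by linarith) hε0
  obtain ⟨T4, hT4, hO⟩ := Om_large 1
  refine ⟨max (max T1 T2) T4, hT1.trans ((le_max_left _ _).trans (le_max_left _ _)), ?_⟩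
  intro T hT
  have g1 : T1 ≤ T := ((le_max_left _ _).trans (le_max_left _ _)).trans hT
  have g2 : T2 ≤ T := ((le_max_right _ _).trans (le_max_left _ _)).trans hT
  have g4 : T4 ≤ T := (le_max_right _ _).trans hT
  have hO1 := hO T g4
  have hTp : 0 < T := by linarith
  have him : 0 < (I * (T : ℂ)).im := by simpa using hTp
  have hHp : 0 < ‖HH (I * T)‖ := norm_pos_iff.2 (Pool.Agent.H24R2.JP.StirAux.HH_ne him)
  obtain ⟨E, hE⟩ : ∃ E : ℂ → ℂ, E = fun u => cexp (-(Om T : ℂ) * (u + h)) *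
    (((‖HH (I * T)‖)⁻¹ : ℝ) : ℂ) := ⟨_, rfl⟩
  have hEd : Differentiable ℂ E := by
    rw [hE]
    fun_prop
  have hE0 : ∀ u, E u ≠ 0 := by
    intro u
    rw [hE]
    refine mul_ne_zero (Complex.exp_ne_zero _) ?_
    rw [Complex.ofReal_ne_zero]
    exact (inv_pos.2 hHp).ne'
  obtain ⟨F, hFe⟩ : ∃ F : ℂ → ℂ, F = fun u => DD c h (1 * u + I * T) * E u := ⟨_, rfl⟩
  have hFd : Differentiable ℂ F := by
    rw [hFe]
    have h2 : Differentiable ℂ fun u : ℂ => DD c h (1 * u + I * T) :=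
      (DD_diff c h).comp (by fun_prop)
    exact h2.mul hEd
  have hDB : ∀ u : ℂ, DD c h (1 * u + I * T) =
      BB (fun _ : Fin 1 => c) (fun _ => 2 * h) (I * T + (u + h)) := by
    intro u
    rw [DD_BB]
    congr 1
    ring
  have hFn : ∀ u : ℂ, ‖F u‖ = ‖BB (fun _ : Fin 1 => c) (fun _ => 2 * h) (I * T + (u + h))‖ *
      Real.exp (-(Om T * (u.re + h))) * (‖HH (I * T)‖)⁻¹ := by
    intro u
    rw [hFe]
    simp only
    rw [norm_mul, hDB, hE]
    simp only
    rw [norm_mul, Complex.norm_exp, Complex.norm_real, Real.norm_eq_abs,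
      abs_of_pos (inv_pos.2 hHp), mul_assoc]
    congr 3
    simp
  have hw : ∀ u : ℂ, (u + (h : ℂ)).re = u.re + h ∧ (u + (h : ℂ)).im = u.im := fun u => by simp
  have hcan : ∀ (A B : ℝ), Real.exp A * ‖HH (I * T)‖ * Real.exp B * (‖HH (I * T)‖)⁻¹ =
      Real.exp (A + B) := by
    intro A B
    rw [Real.exp_add]
    field_simp
  have hlow : ∀ u ∈ Metric.closedBall (5 : ℂ) (7 / 2), Real.exp (-(ε0 * Om T)) ≤ ‖F u‖ ∧
      ‖F u‖ ≤ Real.exp (ε0 * Om T) := by
    intro u hu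
    obtain ⟨z1, z2⟩ := Pool.Agent.W186.LH.mem5 hu
    rw [abs_le] at z1
    obtain ⟨w1, w2⟩ := hw u
    obtain ⟨h5, h6⟩ := (hb T (u + h) g1 (by rw [w1]; linarith) (by rw [w1]; linarith)
      (by rw [w2]; linarith)).2 (by rw [w1]; linarith)
    rw [w1] at h5 h6
    rw [hFn]
    constructor
    · calc Real.exp (-(ε0 * Om T)) = Real.exp (Om T * (u.re + h - ε0) + -(Om T * (u.re + h))) := by
            congr 1; ring
        _ = Real.exp (Om T * (u.re + h - ε0)) * ‖HH (I * T)‖ * Real.exp (-(Om T * (u.re + h))) *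
            (‖HH (I * T)‖)⁻¹ := (hcan _ _).symm
        _ ≤ _ := by gcongr
    · calc ‖BB (fun _ : Fin 1 => c) (fun _ => 2 * h) (I * T + (u + h))‖ *
            Real.exp (-(Om T * (u.re + h))) * (‖HH (I * T)‖)⁻¹
          ≤ Real.exp (Om T * (u.re + h + ε0)) * ‖HH (I * T)‖ * Real.exp (-(Om T * (u.re + h))) *
            (‖HH (I * T)‖)⁻¹ := by gcongr
        _ = Real.exp (Om T * (u.re + h + ε0) + -(Om T * (u.re + h))) := hcan _ _
        _ = Real.exp (ε0 * Om T) := by congr 1; ring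
  have hne : ∃ u, DD c h u ≠ 0 := by
    have h3 := (hlow 5 (Metric.mem_closedBall_self (by norm_num))).1
    refine ⟨1 * 5 + I * T, fun h0 => ?_⟩
    have : F 5 = 0 := by
      rw [hFe]
      simp only
      rw [h0, zero_mul]
    rw [this, norm_zero] at h3
    have := Real.exp_pos (-(ε0 * Om T))
    linarith
  have key := hsab (Om T) F (by linarith) hFd (by
    intro u hu
    obtain ⟨z1, z2⟩ := Pool.Agent.W186.LH.mem5 hu
    rw [abs_le] at z1
    obtain ⟨w1, w2⟩ := hw u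
    have h5 := (hb T (u + h) g1 (by rw [w1]; linarith) (by rw [w1]; linarith)
      (by rw [w2]; linarith)).1
    rw [hFn]
    calc ‖BB (fun _ : Fin 1 => c) (fun _ => 2 * h) (I * T + (u + h))‖ *
            Real.exp (-(Om T * (u.re + h))) * (‖HH (I * T)‖)⁻¹
        ≤ Real.exp (14 * Om T) * ‖HH (I * T)‖ * Real.exp (-(Om T * (u.re + h))) *
            (‖HH (I * T)‖)⁻¹ := by gcongr
      _ = Real.exp (14 * Om T + -(Om T * (u.re + h))) := hcan _ _
      _ ≤ Real.exp (14 * Om T) := by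
          apply Real.exp_le_exp.2
          have : 0 ≤ Om T * (u.re + h) := mul_nonneg (by linarith) (by linarith)
          linarith) hlow (by
    intro S hS
    classical
    have h5 := hc2 T g2 (S.image (fun u => 1 * u + I * T)) (by
      intro w hw'
      rw [Finset.mem_image] at hw'
      obtain ⟨u, hu, rfl⟩ := hw'
      obtain ⟨u1, u2⟩ := hS u hu
      obtain ⟨z1, z2⟩ := Pool.Agent.W186.LH.mem5 u2
      rw [abs_le] at z1
      refine ⟨?_, ?_, ?_⟩
      · rw [hFe] at u1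
        simp only at u1
        exact (mul_eq_zero.1 u1).resolve_right (hE0 u)
      · simp; linarith
      · simp; linarith)
    rw [Finset.sum_image (by
      intro x _ y _ hxy
      simpa using hxy)] at h5
    refine le_trans (le_of_eq ?_) h5
    refine Finset.sum_congr rfl fun u _ => ?_
    rw [hFe, Pool.Agent.W186.LH.ord_tr (DD_diff c h) hne one_ne_zero hEd hE0]) (η : ℂ) (by
      rw [Metric.mem_closedBall, dist_eq_norm]
      have e : (η : ℂ) - 5 = ((η - 5 : ℝ) : ℂ) := by push_cast; ring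
      rw [e, Complex.norm_real, Real.norm_eq_abs, abs_le]
      constructor <;> linarith)
  rw [hFn, Complex.ofReal_re] at key
  have e1 : DD c h (I * T + η) =
      BB (fun _ : Fin 1 => c) (fun _ => 2 * h) (I * T + ((η : ℂ) + h)) := by
    rw [DD_BB, add_assoc]
  rw [e1]
  have h7 := mul_le_mul_of_nonneg_right key
    (by positivity : 0 ≤ Real.exp (Om T * (η + h)) * ‖HH (I * T)‖)
  have e2 : ‖BB (fun _ : Fin 1 => c) (fun _ => 2 * h) (I * T + ((η : ℂ) + h))‖ =
      ‖BB (fun _ : Fin 1 => c) (fun _ => 2 * h) (I * T + ((η : ℂ) + h))‖ *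
      Real.exp (-(Om T * (η + h))) * (‖HH (I * T)‖)⁻¹ *
        (Real.exp (Om T * (η + h)) * ‖HH (I * T)‖) := by
    rw [Real.exp_neg]
    field_simp
  rw [e2]
  refine h7.trans (le_of_eq ?_)
  rw [← mul_assoc, ← Real.exp_add]
  congr 2
  ring

lemma DD_neg {c : ℂ} (hc : ‖c‖ = 1) (h T η : ℝ) :
    ‖DD c h (I * T + ((-η : ℝ) : ℂ))‖ = ‖DD c h (I * T + η)‖ := by
  have e : I * (T : ℂ) + ((-η : ℝ) : ℂ) = -(starRingEnd ℂ) (I * T + η) := by
    apply Complex.ext <;> simp
  rw [e]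
  unfold DD
  rw [D_refl c hc h, norm_mul, hc, one_mul, Complex.norm_conj]

theorem line : S_LINE := by
  intro c h hc hh0 hh1 hF ε hε
  obtain ⟨η, hηe⟩ : ∃ η : ℝ, η = min (min (1 / 4) h) (ε / 8) := ⟨_, rfl⟩
  have hη : 0 < η := by rw [hηe]; exact lt_min (lt_min (by norm_num) hh0) (by linarith)
  have hη4 : η ≤ 1 / 4 := by rw [hηe]; exact (min_le_left _ _).trans (min_le_left _ _)
  have hηh : η ≤ h := by rw [hηe]; exact (min_le_left _ _).trans (min_le_right _ _)
  have hηε : η ≤ ε / 8 := by rw [hηe]; exact min_le_right _ _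
  obtain ⟨T1, hT1, h1⟩ := right_bd hh0 hh1 hF η hη hη4
  obtain ⟨T2, hT2, h2⟩ := mv 2 (ε / 4) (by norm_num) (by linarith)
  obtain ⟨T3, hT3, hb⟩ := BB_base (fun _ : Fin 1 => c) (fun _ => 2 * h) (γ := 2 * h)
    (by linarith) (by linarith) (fun _ => le_rfl) (fun _ => by linarith) 1 one_pos
  obtain ⟨T4, hT4, hO⟩ := Om_large 1
  refine ⟨max (max (T1 + 4) T2) (max T3 T4), ?_⟩
  intro T hT
  have g1 : T1 + 4 ≤ T := ((le_max_left _ _).trans (le_max_left _ _)).trans hT
  have g2 : T2 ≤ T := ((le_max_right _ _).trans (le_max_left _ _)).trans hT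
  have g3 : T3 ≤ T := ((le_max_left _ _).trans (le_max_right _ _)).trans hT
  have g4 : T4 ≤ T := ((le_max_right _ _).trans (le_max_right _ _)).trans hT
  have hO1 := hO T g4
  have hTp : 0 < T := by linarith
  have him : 0 < (I * (T : ℂ)).im := by simpa using hTp
  have hHp : 0 < ‖HH (I * T)‖ := norm_pos_iff.2 (Pool.Agent.H24R2.JP.StirAux.HH_ne him)
  obtain ⟨G, hG⟩ : ∃ G : ℂ → ℂ, G = fun w => DD c h (I * T + w) * cexp ((Om T : ℂ) * w ^ 2) :=
    ⟨_, rfl⟩
  have hGd : Differentiable ℂ G := by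
    rw [hG]
    have h3 : Differentiable ℂ fun w : ℂ => DD c h (I * T + w) := (DD_diff c h).comp (by fun_prop)
    exact h3.mul (by fun_prop)
  have hGn : ∀ w : ℂ, ‖G w‖ = ‖DD c h (I * T + w)‖ * Real.exp (Om T * (w.re ^ 2 - w.im ^ 2)) := by
    intro w
    rw [hG]
    simp only
    rw [norm_mul, Complex.norm_exp]
    congr 2
    rw [Complex.re_ofReal_mul, pow_two, Complex.mul_re]
    ring
  obtain ⟨M, hM⟩ : ∃ M : ℝ, M = Real.exp (Om T * (h + ε)) * ‖HH (I * T)‖ := ⟨_, rfl⟩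
  -- the vertical sides
  have hvert : ∀ v s : ℝ, |v| ≤ 4 → (s = η ∨ s = -η) → ‖G (⟨s, v⟩ : ℂ)‖ ≤ M := by
    intro v s hv hs
    have hv' := abs_le.1 hv
    have hsq : s ^ 2 = η ^ 2 := by
      rcases hs with rfl | rfl
      · rfl
      · ring
    have e : I * (T : ℂ) + (⟨s, v⟩ : ℂ) = I * ((T + v : ℝ) : ℂ) + (s : ℂ) := by
      apply Complex.ext <;> simp
    rw [hGn, e]
    have h3 : ‖DD c h (I * ((T + v : ℝ) : ℂ) + (s : ℂ))‖ ≤
        Real.exp (Om (T + v) * (2 * η + h)) * ‖HH (I * ((T + v : ℝ) : ℂ))‖ := by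
      have h4 := h1 (T + v) (by linarith)
      rcases hs with rfl | rfl
      · exact h4
      · rw [DD_neg hc]
        exact h4
    have h5 := (h2 T v (2 * η + h) g2 (by linarith) (by
      rw [abs_of_pos (by linarith)]
      linarith)).1
    have h6 : Real.exp (Om T * ((⟨s, v⟩ : ℂ).re ^ 2 - (⟨s, v⟩ : ℂ).im ^ 2)) ≤
        Real.exp (Om T * η) := by
      apply Real.exp_le_exp.2
      apply mul_le_mul_of_nonneg_left _ (by linarith)
      simp only
      rw [hsq]
      nlinarith [sq_nonneg v]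
    calc ‖DD c h (I * ((T + v : ℝ) : ℂ) + (s : ℂ))‖ *
          Real.exp (Om T * ((⟨s, v⟩ : ℂ).re ^ 2 - (⟨s, v⟩ : ℂ).im ^ 2))
        ≤ (Real.exp (Om T * (2 * η + h + ε / 4)) * ‖HH (I * T)‖) * Real.exp (Om T * η) :=
          mul_le_mul (h3.trans h5) h6 (Real.exp_pos _).le (by positivity)
      _ = Real.exp (Om T * (2 * η + h + ε / 4) + Om T * η) * ‖HH (I * T)‖ := by
          rw [Real.exp_add]; ring
      _ ≤ M := by
          rw [hM]
          apply mul_le_mul_of_nonneg_right _ (norm_nonneg _)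
          apply Real.exp_le_exp.2
          rw [← mul_add]
          apply mul_le_mul_of_nonneg_left _ (by linarith)
          linarith
  -- the horizontal sides
  have hhor : ∀ x v : ℝ, |x| ≤ η → |v| = 4 → ‖G (⟨x, v⟩ : ℂ)‖ ≤ M := by
    intro x v hx hv
    have hx' := abs_le.1 hx
    have hsq : v ^ 2 = 16 := by
      rw [← sq_abs, hv]; norm_num
    have hx2 : x ^ 2 ≤ 1 := by nlinarith
    rw [hGn, DD_BB, add_assoc]
    have e1 : ((⟨x, v⟩ : ℂ) + (h : ℂ)).re = x + h := by simp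
    have e2 : ((⟨x, v⟩ : ℂ) + (h : ℂ)).im = v := by simp
    have h5 := (hb T ((⟨x, v⟩ : ℂ) + h) g3 (by rw [e1]; linarith) (by rw [e1]; linarith)
      (by rw [e2, hv]; norm_num)).1
    have h6 : Real.exp (Om T * ((⟨x, v⟩ : ℂ).re ^ 2 - (⟨x, v⟩ : ℂ).im ^ 2)) ≤
        Real.exp (Om T * (-15)) := by
      apply Real.exp_le_exp.2
      apply mul_le_mul_of_nonneg_left _ (by linarith)
      simp only
      rw [hsq]
      linarith
    calc ‖BB (fun _ : Fin 1 => c) (fun _ => 2 * h) (I * T + ((⟨x, v⟩ : ℂ) + h))‖ *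
          Real.exp (Om T * ((⟨x, v⟩ : ℂ).re ^ 2 - (⟨x, v⟩ : ℂ).im ^ 2))
        ≤ (Real.exp (14 * Om T) * ‖HH (I * T)‖) * Real.exp (Om T * (-15)) :=
          mul_le_mul h5 h6 (Real.exp_pos _).le (by positivity)
      _ = Real.exp (14 * Om T + Om T * (-15)) * ‖HH (I * T)‖ := by
          rw [Real.exp_add]; ring
      _ ≤ M := by
          rw [hM]
          apply mul_le_mul_of_nonneg_right _ (norm_nonneg _)
          apply Real.exp_le_exp.2
          have : 0 ≤ Om T * (h + ε) := mul_nonneg (by linarith) (by linarith)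
          linarith
  have hU : Bornology.IsBounded (Ioo (-η) η ×ℂ Ioo (-4) 4) :=
    (Metric.isBounded_Ioo _ _).reProdIm (Metric.isBounded_Ioo _ _)
  have hmax := Complex.norm_le_of_forall_mem_frontier_norm_le hU
    (hGd.diffContOnCl (s := Ioo (-η) η ×ℂ Ioo (-4) 4)) (C := M) (by
    intro w hw
    rw [Complex.frontier_reProdIm, frontier_Ioo (by norm_num), frontier_Ioo (by linarith),
      closure_Ioo (by linarith : (-η) < η).ne, closure_Ioo (by norm_num)] at hw
    have ew : w = (⟨w.re, w.im⟩ : ℂ) := rfl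
    rcases hw with hw | hw
    · obtain ⟨a1, a2⟩ := hw
      have a1' : w.re ∈ Icc (-η) η := a1
      have a2' : w.im = -4 ∨ w.im = 4 := a2
      rw [ew]
      apply hhor _ _ (abs_le.2 ⟨a1'.1, a1'.2⟩)
      rcases a2' with a2' | a2' <;> rw [a2'] <;> norm_num
    · obtain ⟨a1, a2⟩ := hw
      have a1' : w.re = -η ∨ w.re = η := a1
      have a2' : w.im ∈ Icc (-4 : ℝ) 4 := a2
      rw [ew]
      exact hvert _ _ (abs_le.2 ⟨a2'.1, a2'.2⟩) a1'.symm) (z := 0) (by
    apply subset_closure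
    constructor
    · show (0 : ℂ).re ∈ Ioo (-η) η
      rw [Complex.zero_re]
      exact ⟨by linarith, hη⟩
    · show (0 : ℂ).im ∈ Ioo (-4 : ℝ) 4
      rw [Complex.zero_im]
      constructor <;> norm_num)
  rw [hGn, hM] at hmax
  simpa using hmax

end Pool.Agent.W723.SZ
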